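import Pool.Agent.H87.KX.TRI

/-!
# No small invariance

If one translation `x` of size between `2 ^ (-K₂)` and `2 ^ (-K)` changes the masses of all the
intervals of length `|x|` by at most `4 ^ (-K₂)`, then every cell of length `2 ^ (-K)` has mass at
most `2 ^ (2 - K)`. So if the first `K` digits have entropy less than `(K - 2) log 2`, there is no
such translation.
-/

set_option autoImplicit false

namespace Pool.KAL

open Finset Real
open Pool.Agent.H49.Ent Pool.Agent.H32.Dense Pool.STK Pool.KVA Pool.KX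

section

variable {Ω : Type} [Fintype Ω]

/-- A cell is covered by intervals of length `y`. -/
lemma ms_cover {p : Ω → ℝ} (hp : ∀ ω, 0 ≤ p ω) (X : Ω → ℝ) (a b y c : ℝ) (m : ℕ)
    (hm : b ≤ a + m * y)
    (h : ∀ a', ms p (fun ω => a' ≤ X ω ∧ X ω < a' + y) ≤ c) :
    ms p (fun ω => a ≤ X ω ∧ X ω < b) ≤ m * c := by
  classical
  have h1 : ms p (fun ω => a ≤ X ω ∧ X ω < b) ≤
      ∑ i ∈ range m, ms p (fun ω => a + i * y ≤ X ω ∧ X ω < a + i * y + y) := by
    unfold ms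
    rw [Finset.sum_comm]
    refine Finset.sum_le_sum fun ω _ => ?_
    by_cases hA : a ≤ X ω ∧ X ω < b
    · rw [if_pos hA]
      have key : ∀ m : ℕ, X ω < a + m * y →
          ∃ i ∈ range m, a + i * y ≤ X ω ∧ X ω < a + i * y + y := by
        intro m
        induction m with
        | zero =>
          intro h2
          exfalso
          push_cast at h2
          linarith [hA.1]
        | succ m ih =>
          intro h2
          by_cases h3 : X ω < a + m * y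
          · obtain ⟨i, hi, h4⟩ := ih h3
            exact ⟨i, Finset.mem_range.mpr (Nat.lt_succ_of_lt (Finset.mem_range.mp hi)), h4⟩
          · refine ⟨m, Finset.self_mem_range_succ m, not_lt.mp h3, ?_⟩
            push_cast at h2
            linarith
      obtain ⟨i, hi, h4⟩ := key m (lt_of_lt_of_le hA.2 hm)
      have h5 := Finset.single_le_sum
          (f := fun i : ℕ => if a + i * y ≤ X ω ∧ X ω < a + i * y + y then p ω else 0)
          (fun j _ => by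
            split_ifs
            · exact hp ω
            · exact le_refl 0) hi
      rw [if_pos h4] at h5
      refine h5.trans (le_of_eq (Finset.sum_congr rfl fun j _ => ?_))
      by_cases hj : a + j * y ≤ X ω ∧ X ω < a + j * y + y
      · rw [if_pos hj, if_pos hj]
      · rw [if_neg hj, if_neg hj]
    · rw [if_neg hA]
      refine Finset.sum_nonneg fun j _ => ?_
      split_ifs
      · exact hp ω
      · exact le_refl 0
  refine h1.trans ?_
  calc ∑ i ∈ range m, ms p (fun ω => a + i * y ≤ X ω ∧ X ω < a + i * y + y)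
      ≤ ∑ _i ∈ range m, c := Finset.sum_le_sum fun i _ => h (a + i * y)
    _ = m * c := by rw [Finset.sum_const, Finset.card_range, nsmul_eq_mul]

/-- One translation of size between `2 ^ (-K₂)` and `2 ^ (-K)` makes the cells of length
`2 ^ (-K)` small. -/
theorem invx_mass {p : Ω → ℝ} (hp : IsLaw p) (X : Ω → ℝ) (x e : ℝ) (K K₂ : ℕ)
    (he : 0 ≤ e) (he2 : e ≤ 1 / 4 ^ K₂) (hx : 1 / 2 ^ K₂ ≤ |x|) (hx2 : |x| ≤ 1 / 2 ^ K)
    (h : ∀ a, ms p (fun ω => a ≤ X ω ∧ X ω < a + |x|) ≤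
      ms p (fun ω => a + x ≤ X ω ∧ X ω < a + x + |x|) + e) (a : ℝ) :
    ms p (fun ω => a ≤ X ω ∧ X ω < a + 1 / 2 ^ K) ≤ 4 / 2 ^ K := by
  have hK2 : (0 : ℝ) < 2 ^ K₂ := by positivity
  have hK : (0 : ℝ) < 2 ^ K := by positivity
  have hx0 : 0 < |x| := lt_of_lt_of_le (by positivity) hx
  have h1 : ∀ a', ms p (fun ω => a' ≤ X ω ∧ X ω < a' + |x|) ≤ 2 / 2 ^ K₂ := by
    intro a'
    have h2 := tri_thm hp X x |x| e (2 ^ K₂) le_rfl Nat.one_le_two_pow he h a'
    refine h2.trans ?_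
    push_cast
    have h3 : (2 : ℝ) ^ K₂ * e ≤ 1 / 2 ^ K₂ := by
      have h4 : (2 : ℝ) ^ K₂ * e ≤ 2 ^ K₂ * (1 / 4 ^ K₂) := mul_le_mul_of_nonneg_left he2 hK2.le
      refine h4.trans (le_of_eq ?_)
      have h5 : (4 : ℝ) ^ K₂ = 2 ^ K₂ * 2 ^ K₂ := by
        rw [← mul_pow]; norm_num
      rw [h5]
      field_simp
    calc 1 / (2 : ℝ) ^ K₂ + 2 ^ K₂ * e ≤ 1 / 2 ^ K₂ + 1 / 2 ^ K₂ := by linarith
      _ = 2 / 2 ^ K₂ := by ring
  obtain ⟨m, hm1, hm2⟩ : ∃ m : ℕ, 1 / 2 ^ K ≤ (m : ℝ) * |x| ∧ (m : ℝ) * |x| ≤ 2 / 2 ^ K := by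
    refine ⟨⌈1 / 2 ^ K / |x|⌉₊, ?_, ?_⟩
    · have := Nat.le_ceil (1 / 2 ^ K / |x|)
      rwa [div_le_iff₀ hx0] at this
    · have h5 := Nat.ceil_lt_add_one (a := 1 / 2 ^ K / |x|) (by positivity)
      have h6 : (⌈1 / 2 ^ K / |x|⌉₊ : ℝ) * |x| ≤ (1 / 2 ^ K / |x| + 1) * |x| :=
        mul_le_mul_of_nonneg_right h5.le hx0.le
      have h7 : (1 / 2 ^ K / |x| + 1) * |x| = 1 / 2 ^ K + |x| := by field_simp
      have h8 : (2 : ℝ) / 2 ^ K = 1 / 2 ^ K + 1 / 2 ^ K := by ring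
      rw [h8]
      linarith
  have h9 := ms_cover hp.nonneg X a (a + 1 / 2 ^ K) |x| (2 / 2 ^ K₂) m (by linarith) h1
  refine h9.trans ?_
  have h10 : (m : ℝ) * (1 / 2 ^ K₂) ≤ 2 / 2 ^ K :=
    (mul_le_mul_of_nonneg_left hx (Nat.cast_nonneg m)).trans hm2
  calc (m : ℝ) * (2 / 2 ^ K₂) = 2 * ((m : ℝ) * (1 / 2 ^ K₂)) := by ring
    _ ≤ 2 * (2 / 2 ^ K) := by linarith
    _ = 4 / 2 ^ K := by ring

/-- The same for the entropy of the first `K` digits. -/
theorem invx_entropy {p : Ω → ℝ} (hp : IsLaw p) (X : Ω → ℝ) (x e : ℝ) (K K₂ : ℕ)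
    (he : 0 ≤ e) (he2 : e ≤ 1 / 4 ^ K₂) (hx : 1 / 2 ^ K₂ ≤ |x|) (hx2 : |x| ≤ 1 / 2 ^ K)
    (h : ∀ a, ms p (fun ω => a ≤ X ω ∧ X ω < a + |x|) ≤
      ms p (fun ω => a + x ≤ X ω ∧ X ω < a + x + |x|) + e) :
    ((K : ℝ) - 2) * Real.log 2 ≤ H p (fun ω => ⌊(2 : ℝ) ^ K * X ω⌋) := by
  classical
  have hK : (0 : ℝ) < 2 ^ K := by positivity
  have h1 : ∀ z : ℤ, law p (fun ω => ⌊(2 : ℝ) ^ K * X ω⌋) z ≤ 4 / 2 ^ K := by
    intro z
    refine le_trans ?_ (invx_mass hp X x e K K₂ he he2 hx hx2 h ((z : ℝ) / 2 ^ K))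
    unfold law ms
    refine Finset.sum_le_sum fun ω _ => ?_
    by_cases hz : ⌊(2 : ℝ) ^ K * X ω⌋ = z
    · rw [if_pos hz]
      rw [if_pos]
      have h2 := Int.floor_le ((2 : ℝ) ^ K * X ω)
      have h3 := Int.lt_floor_add_one ((2 : ℝ) ^ K * X ω)
      rw [hz] at h2 h3
      constructor
      · rw [div_le_iff₀ hK]
        linarith
      · rw [← add_div, lt_div_iff₀ hK]
        linarith
    · rw [if_neg hz]
      by_cases hw : (z : ℝ) / 2 ^ K ≤ X ω ∧ X ω < (z : ℝ) / 2 ^ K + 1 / 2 ^ K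
      · rw [if_pos hw]; exact hp.nonneg ω
      · rw [if_neg hw]
  have h5 := maxp_thm Ω ℤ Unit p (fun ω => ⌊(2 : ℝ) ^ K * X ω⌋) (fun _ => ())
    (fun _ => 4 / 2 ^ K) hp (by
      intro ω _ z
      have hc : cond p (fun _ : Ω => ()) () = p := by
        funext ω'
        unfold Pool.Agent.H49.Ent.cond
        rw [if_pos rfl]
        have : law p (fun _ : Ω => ()) () = 1 := by
          unfold law
          simp [hp.sum_one]
        rw [this, div_one]
      rw [hc]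
      exact h1 z)
  rw [Ex_const hp.sum_one] at h5
  have h6 : -Real.log (4 / 2 ^ K) = ((K : ℝ) - 2) * Real.log 2 := by
    rw [Real.log_div (by norm_num) (by positivity), Real.log_pow,
      show (4 : ℝ) = 2 ^ 2 by norm_num, Real.log_pow]
    push_cast
    ring
  rw [h6] at h5
  refine h5.trans (le_of_eq ?_)
  unfold CH
  rw [H_const hp.sum_one, sub_zero]
  refine H_congr hp.nonneg ?_ ?_
  · intro ω ω' _ _ hh
    exact Prod.ext hh rfl
  · intro ω ω' _ _ hh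
    exact (Prod.ext_iff.mp hh).1

/-- **No small invariance.** -/
theorem invx_thm {p : Ω → ℝ} (hp : IsLaw p) (X : Ω → ℝ) (x e : ℝ) (K K₂ : ℕ)
    (he : 0 ≤ e) (he2 : e ≤ 1 / 4 ^ K₂) (hx2 : |x| ≤ 1 / 2 ^ K)
    (h : ∀ a, ms p (fun ω => a ≤ X ω ∧ X ω < a + |x|) ≤
      ms p (fun ω => a + x ≤ X ω ∧ X ω < a + x + |x|) + e)
    (hH : H p (fun ω => ⌊(2 : ℝ) ^ K * X ω⌋) < ((K : ℝ) - 2) * Real.log 2) :
    |x| < 1 / 2 ^ K₂ := by
  by_contra hcon
  have := invx_entropy hp X x e K K₂ he he2 (not_lt.mp hcon) hx2 h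
  linarith

end

end Pool.KAL
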